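import Pool.Agent.W425.ND.Stm

set_option autoImplicit false

/-! Project ND, part REP1: closure properties of `IsRep`. -/

namespace Pool.Agent.W340.ND

open MvPolynomial Pool.Agent.W425.ND

variable {N : ℕ} {R : Type} [CommRing R] {f : MvPolynomial (Fin N) R}

lemma rep_brk (p : MvPolynomial (Fin N) R) (m : ℕ) : IsRep f (brk f p m) := by
  refine ⟨m, Polynomial.C p * descPochhammer _ m, fun s =>
    p * ((s.descFactorial m : ℕ) : MvPolynomial (Fin N) R) * f ^ (s - m),
    fun s e => rfl, fun s => ?_⟩
  rw [Polynomial.eval_mul, Polynomial.eval_C, descPochhammer_eval_eq_descFactorial]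
  rcases le_or_gt m s with h | h
  · have : f ^ s = f ^ m * f ^ (s - m) := by rw [← pow_add, Nat.add_sub_cancel' h]
    rw [this]
    ring
  · simp only [Nat.descFactorial_of_lt h, Nat.cast_zero, mul_zero, zero_mul]

lemma rep_add {u w : Fn N R} (hu : IsRep f u) (hw : IsRep f w) : IsRep f (u + w) := by
  obtain ⟨L, q, U, h1, h2⟩ := hu
  obtain ⟨L', q', U', h1', h2'⟩ := hw
  refine ⟨L + L', q * Polynomial.C (f ^ L') + q' * Polynomial.C (f ^ L), fun s => U s + U' s,
    fun s e => ?_, fun s => ?_⟩
  · rw [W425.ND.add_apply, h1, h1', coeff_add]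
  · rw [Polynomial.eval_add, Polynomial.eval_mul, Polynomial.eval_mul, Polynomial.eval_C,
      Polynomial.eval_C, pow_add]
    linear_combination f ^ L' * h2 s + f ^ L * h2' s

lemma rep_sh (K : ℕ) {u : Fn N R} (hu : IsRep f u) : IsRep f (sh K u) := by
  obtain ⟨L, q, U, h1, h2⟩ := hu
  refine ⟨L, q.comp (Polynomial.X + Polynomial.C ((K : ℕ) : MvPolynomial (Fin N) R)) *
    Polynomial.C (f ^ K), fun s => U (s + K), fun s e => ?_, fun s => ?_⟩
  · exact h1 _ _
  · simp only
    rw [h2, Polynomial.eval_mul, Polynomial.eval_comp, Polynomial.eval_C, Polynomial.eval_add,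
      Polynomial.eval_X, Polynomial.eval_C, pow_add]
    push_cast
    ring

lemma rep_C (t : R) {u : Fn N R} (hu : IsRep f u) :
    IsRep f ((C t : MvPolynomial (Option (Fin N)) R) • u) := by
  obtain ⟨L, q, U, h1, h2⟩ := hu
  refine ⟨L, Polynomial.C (C t) * q, fun s => C t * U s, fun s e => ?_, fun s => ?_⟩
  · rw [W425.ND.smul_apply, eval_C, h1, coeff_C_mul]
  · rw [Polynomial.eval_mul, Polynomial.eval_C]
    linear_combination (C t : MvPolynomial (Fin N) R) * h2 s

lemma rep_s {u : Fn N R} (hu : IsRep f u) :
    IsRep f ((X none : MvPolynomial (Option (Fin N)) R) • u) := by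
  obtain ⟨L, q, U, h1, h2⟩ := hu
  refine ⟨L, Polynomial.X * q, fun s => C (s : R) * U s, fun s e => ?_, fun s => ?_⟩
  · rw [W425.ND.smul_apply, eval_X, h1, coeff_C_mul]
    rfl
  · rw [Polynomial.eval_mul, Polynomial.eval_X]
    have : (C (s : R) : MvPolynomial (Fin N) R) = ((s : ℕ) : MvPolynomial (Fin N) R) := by
      simp
    simp only [this]
    linear_combination (s : MvPolynomial (Fin N) R) * h2 s

/-- derivative of sequences -/
noncomputable def dd (i : Fin N) (v : Fn N R) : Fn N R := fun s e =>
  ((e i : R) + 1) * v s (e + Finsupp.single i 1)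

/-- multiplication by a variable -/
noncomputable def mx (i : Fin N) (v : Fn N R) : Fn N R := fun s e =>
  if e i = 0 then 0 else v s (e - Finsupp.single i 1)

lemma coeff_pd (i : Fin N) (g : MvPolynomial (Fin N) R) (e : Fin N →₀ ℕ) :
    coeff e (pderiv i g) = ((e i : R) + 1) * coeff (e + Finsupp.single i 1) g := by
  induction g using MvPolynomial.induction_on' with
  | monomial c a =>
    rw [pderiv_monomial, coeff_monomial, coeff_monomial]
    by_cases hc : c = e + Finsupp.single i 1
    · subst hc
      have h1 : e + Finsupp.single i 1 - Finsupp.single i 1 = e := by simp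
      rw [h1, if_pos rfl, if_pos rfl]
      simp
      ring
    · rw [if_neg hc, mul_zero]
      split_ifs with h
      · have : c i = 0 := by
          by_contra h0
          apply hc
          rw [← h]
          ext j
          by_cases hj : j = i
          · subst hj
            simp
            omega
          · simp [Ne.symm hj]
        rw [this]
        simp
      · rfl
  | add p q hp hq =>
    rw [map_add, coeff_add, coeff_add, hp, hq, mul_add]

lemma pderiv_eval (i : Fin N) (q : Polynomial (MvPolynomial (Fin N) R)) :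
    ∃ q' : Polynomial (MvPolynomial (Fin N) R), ∀ s : ℕ,
      pderiv i (q.eval ((s : ℕ) : MvPolynomial (Fin N) R)) =
        q'.eval ((s : ℕ) : MvPolynomial (Fin N) R) := by
  induction q using Polynomial.induction_on' with
  | add p q hp hq =>
    obtain ⟨p', hp⟩ := hp
    obtain ⟨q', hq⟩ := hq
    refine ⟨p' + q', fun s => ?_⟩
    rw [Polynomial.eval_add, Polynomial.eval_add, map_add, hp, hq]
  | monomial n a =>
    refine ⟨Polynomial.monomial n (pderiv i a), fun s => ?_⟩
    rw [Polynomial.eval_monomial, Polynomial.eval_monomial, Derivation.leibniz,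
      ← Nat.cast_pow, Derivation.map_natCast]
    simp [mul_comm]

lemma rep_dd (i : Fin N) {u : Fn N R} (hu : IsRep f u) : IsRep f (dd i u) := by
  obtain ⟨L, q, U, h1, h2⟩ := hu
  obtain ⟨q', hq'⟩ := pderiv_eval i q
  refine ⟨L + 1, Polynomial.C f * q' + Polynomial.X * q * Polynomial.C (pderiv i f) -
    Polynomial.C ((L : MvPolynomial (Fin N) R) * pderiv i f) * q,
    fun s => pderiv i (U s), fun s e => ?_, fun s => ?_⟩
  · rw [coeff_pd, dd, h1]
  · have h3 := congrArg (pderiv i) (h2 s)
    rw [Derivation.leibniz, Derivation.leibniz, Derivation.leibniz_pow, Derivation.leibniz_pow,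
      hq'] at h3
    simp only [smul_eq_mul, nsmul_eq_mul] at h3
    simp only [Polynomial.eval_add, Polynomial.eval_sub, Polynomial.eval_mul,
      Polynomial.eval_C, Polynomial.eval_X]
    have e1 : ∀ n : ℕ, (n : MvPolynomial (Fin N) R) * (f ^ (n - 1) * f) =
        (n : MvPolynomial (Fin N) R) * f ^ n := by
      intro n
      rcases Nat.eq_zero_or_pos n with h | h
      · subst h; simp
      · rw [← pow_succ, Nat.sub_add_cancel h]
    have e2 := e1 s
    have e3 := e1 L
    have h4 := h2 s
    linear_combination f * h3 + (Polynomial.eval (s : MvPolynomial (Fin N) R) q) * pderiv i f * e2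
      - U s * pderiv i f * e3 - (L : MvPolynomial (Fin N) R) * pderiv i f * h4

lemma rep_mx (i : Fin N) {u : Fn N R} (hu : IsRep f u) : IsRep f (mx i u) := by
  obtain ⟨L, q, U, h1, h2⟩ := hu
  refine ⟨L, Polynomial.C (X i) * q, fun s => X i * U s, fun s e => ?_, fun s => ?_⟩
  · rw [coeff_X_mul', mx]
    by_cases h : e i = 0
    · rw [if_pos h, if_neg (by simpa using h)]
    · rw [if_neg h, if_pos (by simpa using h), h1]
  · rw [Polynomial.eval_mul, Polynomial.eval_C]
    linear_combination (X i : MvPolynomial (Fin N) R) * h2 s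

lemma rep_X (o : Option (Fin N)) {u : Fn N R} (hu : IsRep f u) :
    IsRep f ((X o : MvPolynomial (Option (Fin N)) R) • u) := by
  cases o with
  | none => exact rep_s hu
  | some i =>
    have : (X (some i) : MvPolynomial (Option (Fin N)) R) • u = mx i (dd i u) := by
      funext s e
      rw [W425.ND.smul_apply, eval_X, mx]
      show ((e i : ℕ) : R) * u s e = _
      split_ifs with h
      · rw [h]; simp
      · have h2 : e - Finsupp.single i 1 + Finsupp.single i 1 = e := by
          ext j
          by_cases hj : j = i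
          · subst hj
            simp
            omega
          · simp [Ne.symm hj]
        have h3 : (e - Finsupp.single i 1 : Fin N →₀ ℕ) i + 1 = e i := by
          simp
          omega
        rw [dd, h2, ← Nat.cast_succ, Nat.succ_eq_add_one, h3]
    rw [this]
    exact rep_mx i (rep_dd i hu)

lemma rep_smul (P : MvPolynomial (Option (Fin N)) R) : ∀ u : Fn N R, IsRep f u →
    IsRep f (P • u) := by
  induction P using MvPolynomial.induction_on with
  | C a => exact fun u hu => rep_C a hu
  | add p q hp hq =>
    intro u hu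
    rw [add_smul]
    exact rep_add (hp u hu) (hq u hu)
  | mul_X p o hp =>
    intro u hu
    rw [mul_smul]
    exact hp _ (rep_X o hu)

lemma low_zero (u : Fn N R) : low (fun _ => 0) u = u := by
  funext s e
  have : tr (fun _ => 0) e = e := by
    ext i
    simp [tr]
  simp [low, this]

lemma low_pos (δ : Fin N → ℤ) (i : Fin N) (hi : 0 < δ i) (u : Fn N R) :
    low δ u = dd i (low (Function.update δ i (δ i - 1)) u) := by
  funext s e
  set δ' := Function.update δ i (δ i - 1) with hδ'
  have hi' : δ' i = δ i - 1 := by simp [hδ']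
  have hj' : ∀ j, j ≠ i → δ' j = δ j := fun j hj => by simp [hδ', hj]
  have key : ∀ j, (((e + Finsupp.single i 1 : Fin N →₀ ℕ) j : ℕ) : ℤ) + δ' j = (e j : ℤ) + δ j := by
    intro j
    by_cases hj : j = i
    · subst hj
      rw [hi']
      simp
    · rw [hj' j hj]
      simp [Ne.symm hj]
  have htr : tr δ' (e + Finsupp.single i 1) = tr δ e := by
    ext j
    simp only [tr, Finsupp.equivFunOnFinite_symm_apply_apply]
    rw [key]
  unfold low dd
  simp only [key, htr]
  by_cases h : ∀ j, 0 ≤ (e j : ℤ) + δ j
  · rw [if_pos h, if_pos h, ← mul_assoc]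
    congr 1
    have hprod : (∏ j, ((e j : ℤ) + δ j).toNat.descFactorial (δ j).toNat) =
        (e i + 1) * ∏ j, ((e j : ℤ) + δ j).toNat.descFactorial (δ' j).toNat := by
      rw [← Finset.mul_prod_erase _ _ (Finset.mem_univ i),
        ← Finset.mul_prod_erase _ (fun j => ((e j : ℤ) + δ j).toNat.descFactorial (δ' j).toNat)
          (Finset.mem_univ i), ← mul_assoc]
      congr 1
      · have h1 : (δ i).toNat = (δ' i).toNat + 1 := by
          rw [hi']; omega
        rw [h1, Nat.descFactorial_succ]
        congr 1
        rw [hi']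
        have := h i
        omega
      · refine Finset.prod_congr rfl fun j hj => ?_
        rw [hj' j (Finset.ne_of_mem_erase hj)]
    rw [hprod]
    push_cast
    ring
  · rw [if_neg h, if_neg h, mul_zero]

lemma low_neg (δ : Fin N → ℤ) (i : Fin N) (hi : δ i < 0) (u : Fn N R) :
    low δ u = mx i (low (Function.update δ i (δ i + 1)) u) := by
  funext s e
  set δ' := Function.update δ i (δ i + 1) with hδ'
  have hi' : δ' i = δ i + 1 := by simp [hδ']
  have hj' : ∀ j, j ≠ i → δ' j = δ j := fun j hj => by simp [hδ', hj]
  by_cases h0 : e i = 0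
  · rw [mx, if_pos h0, low, if_neg]
    intro h
    have := h i
    rw [h0] at this
    simp at this
    omega
  have key : ∀ j, (((e - Finsupp.single i 1 : Fin N →₀ ℕ) j : ℕ) : ℤ) + δ' j = (e j : ℤ) + δ j := by
    intro j
    by_cases hj : j = i
    · subst hj
      rw [hi']
      simp
      omega
    · rw [hj' j hj]
      simp [Ne.symm hj]
  have htr : tr δ' (e - Finsupp.single i 1) = tr δ e := by
    ext j
    simp only [tr, Finsupp.equivFunOnFinite_symm_apply_apply]
    rw [key]
  rw [mx, if_neg h0]
  unfold low
  simp only [key, htr]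
  by_cases h : ∀ j, 0 ≤ (e j : ℤ) + δ j
  · rw [if_pos h, if_pos h]
    congr 2
    refine Finset.prod_congr rfl fun j _ => ?_
    by_cases hj : j = i
    · subst hj
      rw [hi']
      have h1 : (δ j).toNat = 0 := by omega
      have h2 : (δ j + 1).toNat = 0 := by omega
      rw [h1, h2]
    · rw [hj' j hj]
  · rw [if_neg h, if_neg h]

lemma rep_low_aux (n : ℕ) : ∀ δ : Fin N → ℤ, ∑ i, (δ i).natAbs = n → ∀ u : Fn N R,
    IsRep f u → IsRep f (low δ u) := by
  induction n with
  | zero =>
    intro δ hδ u hu
    have : δ = fun _ => 0 := by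
      funext i
      rw [Finset.sum_eq_zero_iff] at hδ
      exact Int.natAbs_eq_zero.1 (hδ i (Finset.mem_univ i))
    rw [this, low_zero]
    exact hu
  | succ n ih =>
    intro δ hδ u hu
    have : ∃ i, δ i ≠ 0 := by
      by_contra h
      push Not at h
      simp [h] at hδ
    obtain ⟨i, hi⟩ := this
    have hsum : ∀ a : ℤ, a.natAbs + 1 = (δ i).natAbs →
        ∑ j, (Function.update δ i a j).natAbs = n := by
      intro a ha
      have h1 := Finset.add_sum_erase Finset.univ (fun j => (δ j).natAbs) (Finset.mem_univ i)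
      have h2 := Finset.add_sum_erase Finset.univ
        (fun j => (Function.update δ i a j).natAbs) (Finset.mem_univ i)
      have h3 : ∑ j ∈ Finset.univ.erase i, (Function.update δ i a j).natAbs =
          ∑ j ∈ Finset.univ.erase i, (δ j).natAbs := by
        refine Finset.sum_congr rfl fun j hj => ?_
        rw [Function.update_of_ne (Finset.ne_of_mem_erase hj)]
      simp only [Function.update_self] at h2
      rw [h3] at h2
      omega
    rcases lt_or_gt_of_ne hi with h | h
    · rw [low_neg δ i h]
      exact rep_mx i (ih _ (hsum _ (by omega)) u hu)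
    · rw [low_pos δ i h]
      exact rep_dd i (ih _ (hsum _ (by omega)) u hu)

theorem rep1 : TaskREP1 := by
  intro N R _ f
  exact ⟨rep_brk, fun u w hu hw => rep_add hu hw, fun P u hu => rep_smul P u hu,
    fun δ u hu => rep_low_aux _ δ rfl u hu, fun L u hu => rep_sh L hu⟩

end Pool.Agent.W340.ND
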